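import Mathlib

/-!
# Hypersurfaces of degree two in `r` variables over a base: definitions

`M` is a finite set of exponents of the monomials in the variables `t` of the base.
-/

namespace Pool.Agent.Helper92.RK

open MvPolynomial

/-- The index set of the coefficients. -/
abbrev Ix (r : ℕ) {b : ℕ} (M : Finset (Fin b →₀ ℕ)) := (Fin r → Fin 3) × M

section

variable {R : Type*} [CommRing R] {r b : ℕ} {M : Finset (Fin b →₀ ℕ)}

/-- The polynomial with coefficients `a`: degree at most two in each variable `x i`, and with
the exponents `M` in the variables `t j`. -/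
noncomputable def form (a : Ix r M → R) : MvPolynomial (Fin r ⊕ Fin b) R :=
  ∑ e, C (a e) * ((∏ i, X (.inl i) ^ (e.1 i : ℕ)) * ∏ j, X (.inr j) ^ (e.2 : Fin b →₀ ℕ) j)

/-- The coefficient of `t ^ β` at the point `x`. -/
def cf (a : Ix r M → R) (x : Fin r → R) (β : M) : R :=
  ∑ e : Fin r → Fin 3, a (e, β) * ∏ i, x i ^ (e i : ℕ)

/-- The coefficient of the `j`-th power of the last variable `x`. -/
def sub {s : ℕ} (j : Fin 3) (a : Ix (s + 1) M → R) : Ix s M → R :=
  fun e => a (Fin.snoc (α := fun _ => Fin 3) e.1 j, e.2)

/-- The discriminant with respect to the last variable `x`. -/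
noncomputable def dis {s : ℕ} (a : Ix (s + 1) M → R) : MvPolynomial (Fin s ⊕ Fin b) R :=
  form (sub 1 a) ^ 2 - 4 * form (sub 2 a) * form (sub 0 a)

end

end Pool.Agent.Helper92.RK
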