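import Mathlib
import Pool.Agent.Helper92.RK.Defs

/-!
# Hypersurfaces of degree two in `r` variables over a base: first facts
-/

namespace Pool.Agent.Helper92.RK

open MvPolynomial

variable {b : ℕ} {M : Finset (Fin b →₀ ℕ)}

theorem form_eq {R : Type*} [CommRing R] {s : ℕ} (a : Ix (s + 1) M → R) :
    form a = ∑ j : Fin 3, rename (Sum.map Fin.castSucc id) (form (sub j a)) *
      X (.inl (Fin.last s)) ^ (j : ℕ) := by
  unfold form
  rw [← (Equiv.prodCongr (Fin.snocEquiv fun _ => Fin 3) (Equiv.refl M)).sum_comp,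
    Fintype.sum_prod_type, Fintype.sum_prod_type]
  refine Finset.sum_congr rfl fun j _ => ?_
  rw [map_sum, Finset.sum_mul, Fintype.sum_prod_type]
  refine Finset.sum_congr rfl fun e _ => Finset.sum_congr rfl fun β _ => ?_
  simp only [Equiv.prodCongr_apply, Prod.map, Equiv.coe_refl, id, Fin.snocEquiv, Equiv.coe_fn_mk,
    sub, map_mul, rename_C, map_prod, map_pow, rename_X, Sum.map_inl, Sum.map_inr]
  rw [Fin.prod_univ_castSucc]
  simp only [Fin.snoc_castSucc, Fin.snoc_last]
  ring

end Pool.Agent.Helper92.RK
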