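import Mathlib
import Pool.Agent.Helper15.NumField
import Pool.Agent.Helper92.RK.Defs

/-!
# Density of the points where `q (x, t)` is a square

`q` has degree at most four in each `x i`, there is a constant section `x = P`,
`q (P, t) = y (t) ^ 2`, and `y` has a zero `t₀` such that no partial derivative of `q` with
respect to the `x i` vanishes at `(P, t₀)`.
-/

namespace Pool.Agent.Helper92.RK

open NNReal MvPolynomial Pool.Agent.Helper15

section spec

variable {R S : Type*} [CommRing R] [CommRing S] {σ τ : Type*}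

/-- Specialisation of the variables `t`. -/
noncomputable def spec (T : τ → R) (F : MvPolynomial (σ ⊕ τ) R) : MvPolynomial σ R :=
  aeval (Sum.elim X fun l => C (T l)) F

theorem eval_spec (T : τ → R) (F : MvPolynomial (σ ⊕ τ) R) (x : σ → R) :
    eval x (spec T F) = eval (Sum.elim x T) F := by
  unfold spec
  induction F using MvPolynomial.induction_on with
  | C r => simp
  | add p q hp hq => simp only [map_add, hp, hq]
  | mul_X p i hp =>
    rw [map_mul, map_mul, hp, map_mul, aeval_X, eval_X]
    congr 1
    rcases i with i | i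
    · rw [Sum.elim_inl, Sum.elim_inl, eval_X]
    · rw [Sum.elim_inr, Sum.elim_inr, eval_C]

theorem map_spec (φ : R →+* S) (T : τ → R) (F : MvPolynomial (σ ⊕ τ) R) :
    map φ (spec T F) = spec (fun l => φ (T l)) (map φ F) := by
  unfold spec
  induction F using MvPolynomial.induction_on with
  | C r => simp
  | add p q hp hq => simp only [map_add, hp, hq]
  | mul_X p i hp =>
    rw [map_mul, map_mul, hp, map_mul, map_mul, aeval_X, map_X, aeval_X]
    congr 1
    rcases i with i | i
    · rw [Sum.elim_inl, Sum.elim_inl, map_X]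
    · rw [Sum.elim_inr, Sum.elim_inr, map_C]

theorem pderiv_spec (T : τ → R) (F : MvPolynomial (σ ⊕ τ) R) (j : σ) :
    pderiv j (spec T F) = spec T (pderiv (.inl j) F) := by
  classical
  unfold spec
  induction F using MvPolynomial.induction_on with
  | C r => simp
  | add p q hp hq => simp only [map_add, hp, hq]
  | mul_X p i hp =>
    simp only [map_mul, Derivation.leibniz, smul_eq_mul, hp, aeval_X, map_add]
    congr 1
    rcases i with i | i
    · by_cases h : i = j
      · subst h; simp
      · rw [Sum.elim_inl, pderiv_X_of_ne h, pderiv_X_of_ne (by simpa using h)]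
        simp
    · rw [Sum.elim_inr, pderiv_C, pderiv_X_of_ne (by simp)]
      simp

theorem degreeOf_spec_le [Nontrivial R] (T : τ → R) (F : MvPolynomial (σ ⊕ τ) R) (j : σ) :
    (spec T F).degreeOf j ≤ F.degreeOf (.inl j) := by
  classical
  unfold spec
  rw [aeval_def, eval₂_eq]
  refine le_trans (degreeOf_sum_le j _ _) ?_
  refine Finset.sup_le fun m hm => ?_
  refine le_trans (degreeOf_C_mul_le _ _ _) ?_
  refine le_trans (degreeOf_prod_le j _ _) ?_
  have hmj : m (.inl j) ≤ F.degreeOf (.inl j) := monomial_le_degreeOf _ hm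
  refine le_trans ?_ hmj
  calc ∑ i ∈ m.support, degreeOf j ((Sum.elim X (fun l => C (T l)) i : MvPolynomial σ R) ^ m i)
      ≤ ∑ i ∈ m.support, (if i = .inl j then m i else 0) := by
        refine Finset.sum_le_sum fun i _ => ?_
        refine le_trans (degreeOf_pow_le _ _ _) ?_
        rcases i with i | i
        · rw [Sum.elim_inl]
          by_cases h : i = j
          · subst h
            rw [if_pos rfl, degreeOf_X_self, mul_one]
          · rw [degreeOf_X_of_ne (Ne.symm h), mul_zero]
            exact Nat.zero_le _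
        · rw [Sum.elim_inr, degreeOf_C, mul_zero]
          exact Nat.zero_le _
    _ ≤ m (.inl j) := by
        rw [Finset.sum_ite_eq']
        split_ifs
        · exact le_rfl
        · exact Nat.zero_le _

end spec

theorem exists_integral {L ι : Type*} [Field L] (v : Valuation L ℝ≥0) (h3 : v 3 < 1)
    (F : MvPolynomial ι L) : ∃ k : ℕ, ∃ F' : MvPolynomial ι v.integer,
      map v.integer.subtype F' = C ((9 : L) ^ k) * F := by
  obtain ⟨k, hk⟩ := exists_pow_mul_le_one v h3 F.support (fun m => coeff m F)
  refine ⟨k, ?_⟩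
  have : C ((9 : L) ^ k) * F ∈ Set.range (map (σ := ι) v.integer.subtype) := by
    rw [mem_range_map_iff_coeffs_subset]
    intro z hz
    obtain ⟨m, hm⟩ := mem_coeffs_iff.mp hz
    refine ⟨⟨z, ?_⟩, rfl⟩
    rw [hm.2, coeff_C_mul]
    refine hk m ?_
    have h1 := hm.1
    rw [mem_support_iff, coeff_C_mul] at h1
    rw [mem_support_iff]
    exact right_ne_zero_of_mul h1
  exact this

theorem eval_coe {L ι : Type*} [Field L] (v : Valuation L ℝ≥0) (b : ι → v.integer)
    (Q : MvPolynomial ι v.integer) :
    eval (fun i => (b i : L)) (map v.integer.subtype Q) = ((eval b Q : v.integer) : L) := by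
  rw [eval_map, ← Subring.subtype_apply, ← MvPolynomial.eval₂_id, MvPolynomial.hom_eval₂]
  rfl

/-- **Density over a base.** -/
theorem dense_sq {L : Type*} [Field L] [CharZero L] (v : Valuation L ℝ≥0) (h3 : v 3 < 1)
    (h30 : v 3 ≠ 0) {s b : ℕ} (q : MvPolynomial (Fin s ⊕ Fin b) L)
    (hdeg : ∀ i, q.degreeOf (.inl i) ≤ 4) (P : Fin s → L) (t₀ : Fin b → L)
    (y : MvPolynomial (Fin b) L) (hy : ∀ t, eval (Sum.elim P t) q = eval t y ^ 2)
    (hy0 : eval t₀ y = 0) (hyne : y ≠ 0)
    (hd : ∀ i, eval (Sum.elim P t₀) (pderiv (.inl i) q) ≠ 0)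
    (G : MvPolynomial (Fin s ⊕ Fin b) L)
    (hG : ∀ z, (∃ u, u ^ 2 = eval z q) → eval z G = 0) : G = 0 := by
  classical
  have h3ne : (3 : L) ≠ 0 := by norm_num
  have h9ne : (9 : L) ≠ 0 := by norm_num
  have h9 : v (9 : L) ≤ 1 := by
    have : (9 : L) = 3 * 3 := by norm_num
    rw [this, map_mul]
    exact mul_le_one₀ h3.le zero_le h3.le
  set a0 : Fin s ⊕ Fin b → L := Sum.elim P t₀ with ha0
  obtain ⟨k, F', hF'⟩ := exists_integral v h3 (translate a0 q)
  obtain ⟨k2, y', hy'⟩ := exists_integral v h3 (translate t₀ y)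
  -- values
  have hval : ∀ z : Fin s ⊕ Fin b → v.integer, ((eval z F' : v.integer) : L) =
      9 ^ k * eval ((fun i => (z i : L)) + a0) q := by
    intro z
    rw [← eval_coe, hF', map_mul, eval_C, eval_translate]
  have hvaly : ∀ T : Fin b → v.integer, ((eval T y' : v.integer) : L) =
      9 ^ k2 * eval ((fun i => (T i : L)) + t₀) y := by
    intro T
    rw [← eval_coe, hy', map_mul, eval_C, eval_translate]
  have hvald : ∀ (z : Fin s ⊕ Fin b → v.integer) (j : Fin s),
      ((eval z (pderiv (.inl j) F') : v.integer) : L) =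
      9 ^ k * eval ((fun i => (z i : L)) + a0) (pderiv (.inl j) q) := by
    intro z j
    rw [← eval_coe, ← pderiv_map, hF', pderiv_C_mul, map_mul, eval_C, eval_pderiv_translate]
  have hz0 : (fun i => (((0 : Fin s ⊕ Fin b → v.integer) i : v.integer) : L)) = 0 := by
    funext i; simp
  have hz0' : (fun i => (((0 : Fin b → v.integer) i : v.integer) : L)) = 0 := by
    funext i; simp
  -- the lower bound
  obtain ⟨c, hcpos, hc1, hc⟩ : ∃ c : ℝ≥0, 0 < c ∧ c ≤ 1 ∧ ∀ j : Fin s,
      c ≤ v ((eval 0 (pderiv (.inl j) F') : v.integer) : L) := by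
    have hne : (insert (1 : ℝ≥0) (Finset.univ.image fun j : Fin s =>
      v ((eval 0 (pderiv (.inl j) F') : v.integer) : L))).Nonempty := ⟨1, by simp⟩
    refine ⟨Finset.min' _ hne, ?_, ?_, ?_⟩
    · rw [Finset.lt_min'_iff]
      intro z hz
      rw [Finset.mem_insert, Finset.mem_image] at hz
      rcases hz with rfl | ⟨j, -, rfl⟩
      · exact one_pos
      · rw [pos_iff_ne_zero, Valuation.ne_zero_iff, hvald, hz0, zero_add]
        exact mul_ne_zero (pow_ne_zero _ h9ne) (hd j)
    · exact Finset.min'_le _ _ (Finset.mem_insert_self _ _)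
    · intro j
      exact Finset.min'_le _ _ (Finset.mem_insert_of_mem (Finset.mem_image_of_mem _
        (Finset.mem_univ j)))
  have h9pos : 0 < v (9 : L) ^ (2 * k2) :=
    pow_pos (pos_iff_ne_zero.mpr ((Valuation.ne_zero_iff v).mpr h9ne)) _
  obtain ⟨N, hN⟩ := _root_.exists_pow_lt_of_lt_one (show (0 : ℝ≥0) < v 3 * c ^ 8 *
    v 9 ^ (2 * k2) from mul_pos (mul_pos (pos_iff_ne_zero.mpr h30) (pow_pos hcpos 8)) h9pos) h3
  have h9le : v (9 : L) ^ (2 * k2) ≤ 1 := pow_le_one₀ zero_le h9
  have hN1 : v 3 ^ N < v 3 * c ^ 8 := by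
    calc v 3 ^ N < v 3 * c ^ 8 * v 9 ^ (2 * k2) := hN
      _ ≤ v 3 * c ^ 8 * 1 := mul_le_mul' le_rfl h9le
      _ = v 3 * c ^ 8 := mul_one _
  have hNc : v 3 ^ N < c := by
    calc v 3 ^ N < v 3 * c ^ 8 := hN1
      _ ≤ 1 * c ^ 1 := mul_le_mul' h3.le (pow_le_pow_of_le_one zero_le hc1 (by norm_num))
      _ = c := by rw [one_mul, pow_one]
  have hN0 : v 3 ^ N ≤ 1 := pow_le_one₀ zero_le h3.le
  -- one fibre
  have key : ∀ T : Fin b → L, (∀ l, v (T l) ≤ v 3 ^ N) → eval (T + t₀) y ≠ 0 →
      ∀ x : Fin s → L, eval (Sum.elim x T) (translate a0 G) = 0 := by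
    intro T hT hyT
    obtain ⟨T', hT'⟩ : ∃ T' : Fin b → v.integer, T = fun l => (T' l : L) :=
      ⟨fun l => ⟨T l, (hT l).trans hN0⟩, rfl⟩
    have hel : ∀ x : Fin s → v.integer, (fun i => ((Sum.elim x T' i : v.integer) : L)) =
        Sum.elim (fun i => (x i : L)) T := by
      intro x
      funext i
      rcases i with i | i
      · rfl
      · rw [hT']; rfl
    have hel0 : (fun i => ((Sum.elim (0 : Fin s → v.integer) T' i : v.integer) : L)) =
        Sum.elim (0 : Fin s → L) T := by
      rw [hel]
      funext i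
      rcases i with i | i <;> simp
    have hdist : ∀ i, v (((Sum.elim (0 : Fin s → v.integer) T' i -
        (0 : Fin s ⊕ Fin b → v.integer) i : v.integer)) : L) ≤ v 3 ^ N := by
      intro i
      rcases i with i | i
      · simp
      · simp only [Sum.elim_inr, Pi.zero_apply, sub_zero]
        have := hT i
        rwa [hT'] at this
    have hadd : Sum.elim (0 : Fin s → L) T + a0 = Sum.elim P (T + t₀) := by
      funext i
      rcases i with i | i <;> simp [ha0]
    have hgoal : spec T (translate a0 G) = 0 := by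
      refine dense_local v h3 (spec T' F') (fun j => ?_) 0 (3 ^ k * eval (T + t₀) y)
        (mul_ne_zero (pow_ne_zero _ h3ne) hyT) ?_ c (fun j => ?_) ?_ _ ?_
      · refine (degreeOf_spec_le _ _ _).trans ?_
        rw [degreeOf_le_iff]
        intro m hm
        have hmF : m ∈ (C ((9 : L) ^ k) * translate a0 q).support := by
          rw [mem_support_iff] at hm ⊢
          rw [← hF', coeff_map]
          intro h
          apply hm
          exact Subtype.ext h
        have hdq : (C ((9 : L) ^ k) * translate a0 q).degreeOf (Sum.inl j) ≤ 4 :=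
          (degreeOf_C_mul_le _ _ _).trans ((degreeOf_translate_le _ _ _).trans (hdeg j))
        exact (degreeOf_le_iff.mp hdq) m hmF
      · rw [eval_spec, hval, hel0, hadd, hy, mul_pow, ← pow_mul, mul_comm k 2, pow_mul]
        norm_num
      · rw [pderiv_spec, eval_spec]
        have h1 := lipschitz v (pderiv (Sum.inl j) F') (v 3 ^ N) _ _ hdist
        have h2 : v ((eval (Sum.elim 0 T') (pderiv (Sum.inl j) F') -
            eval 0 (pderiv (Sum.inl j) F') : v.integer) : L) <
            v ((eval 0 (pderiv (Sum.inl j) F') : v.integer) : L) :=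
          lt_of_le_of_lt h1 (lt_of_lt_of_le hNc (hc j))
        have h4 : ((eval (Sum.elim 0 T') (pderiv (Sum.inl j) F') : v.integer) : L) =
            ((eval 0 (pderiv (.inl j) F') : v.integer) : L) +
            ((eval (Sum.elim 0 T') (pderiv (.inl j) F') -
            eval 0 (pderiv (.inl j) F') : v.integer) : L) := by
          push_cast; ring
        rw [h4, Valuation.map_add_eq_of_lt_left v h2]
        exact hc j
      · -- smallness
        have h1 : v ((eval T' y' - eval 0 y' : v.integer) : L) ≤ v 3 ^ N := by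
          refine lipschitz v y' (v 3 ^ N) _ _ fun l => ?_
          have := hdist (.inr l)
          simpa using this
        have h2 : ((eval T' y' - eval 0 y' : v.integer) : L) = 9 ^ k2 * eval (T + t₀) y := by
          push_cast
          rw [hvaly, hvaly, hz0', zero_add, hy0, mul_zero, sub_zero, hT']
        rw [h2, map_mul, map_pow] at h1
        have h5 : v (3 ^ k * eval (T + t₀) y) ≤ v (eval (T + t₀) y) := by
          rw [map_mul, map_pow]
          calc v 3 ^ k * v (eval (T + t₀) y) ≤ 1 * v (eval (T + t₀) y) :=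
                mul_le_mul' (pow_le_one₀ zero_le h3.le) le_rfl
            _ = _ := one_mul _
        refine lt_of_le_of_lt (pow_le_pow_left₀ zero_le h5 2) ?_
        have h6 : v (eval (T + t₀) y) ^ 2 * v 9 ^ (2 * k2) ≤ v 3 ^ N := by
          calc v (eval (T + t₀) y) ^ 2 * v 9 ^ (2 * k2)
              = (v 9 ^ k2 * v (eval (T + t₀) y)) ^ 2 := by ring
            _ ≤ (v 3 ^ N) ^ 2 := pow_le_pow_left₀ zero_le h1 2
            _ = v 3 ^ N * v 3 ^ N := sq _
            _ ≤ v 3 ^ N * 1 := mul_le_mul' le_rfl hN0
            _ = v 3 ^ N := mul_one _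
        exact lt_of_mul_lt_mul_right (lt_of_le_of_lt h6 hN) zero_le
      · rintro x ⟨u, hu0, hu⟩
        rw [eval_spec, eval_translate]
        apply hG
        have h1 : eval x (map v.integer.subtype (spec T' F')) =
            9 ^ k * eval (Sum.elim x T + a0) q := by
          have h2 : map v.integer.subtype (spec T' F') = spec T (map v.integer.subtype F') := by
            rw [map_spec, hT']
            rfl
          rw [h2, eval_spec, hF', map_mul, eval_C, eval_translate]
        refine ⟨u / 3 ^ k, ?_⟩
        rw [div_pow, hu, h1]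
        have e2 : ((3 : L) ^ k) ^ 2 = 9 ^ k := by
          rw [← pow_mul, mul_comm, pow_mul]; norm_num
        rw [e2]
        field_simp
    intro x
    rw [← eval_spec, hgoal, map_zero]
  -- all fibres
  have hinf : {z : L | v z ≤ v 3 ^ N}.Infinite := by
    refine Set.infinite_of_injective_forall_mem (f := fun m : ℕ => (3 : L) ^ (N + m)) ?_ ?_
    · intro m m' h
      have h1 : v ((3 : L) ^ (N + m)) = v ((3 : L) ^ (N + m')) := by
        have h2 : (3 : L) ^ (N + m) = (3 : L) ^ (N + m') := h
        rw [h2]
      rw [map_pow, map_pow] at h1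
      have h2 := pow_right_injective₀ (pos_iff_ne_zero.mpr h30) h3.ne h1
      omega
    · intro m
      show v ((3 : L) ^ (N + m)) ≤ v 3 ^ N
      rw [map_pow, pow_add]
      calc v 3 ^ N * v 3 ^ m ≤ v 3 ^ N * 1 := mul_le_mul' le_rfl (pow_le_one₀ zero_le h3.le)
        _ = v 3 ^ N := mul_one _
  have hprod : translate a0 G * rename Sum.inr (translate t₀ y) = 0 := by
    refine funext_set (p := translate a0 G * rename Sum.inr (translate t₀ y)) (q := 0)
      (fun i => Sum.elim (fun _ => Set.univ) (fun _ => {z : L | v z ≤ v 3 ^ N}) i) ?_ ?_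
    · intro i
      rcases i with i | i
      · exact Set.infinite_univ
      · exact hinf
    · intro z hz
      rw [map_zero, map_mul, eval_rename, eval_translate]
      have hz1 : ∀ l, v (z (.inr l)) ≤ v 3 ^ N := fun l => hz (.inr l) (Set.mem_univ _)
      by_cases h : eval ((z ∘ Sum.inr) + t₀) y = 0
      · have : eval (z ∘ Sum.inr) (translate t₀ y) = 0 := by rw [eval_translate, h]
        rw [this, mul_zero]
      · have h1 := key (z ∘ Sum.inr) hz1 h (z ∘ Sum.inl)
        rw [Sum.elim_comp_inl_inr] at h1
        rw [eval_translate] at h1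
        rw [h1, zero_mul]
  have hinj : ∀ {κ : Type} (a : κ → L) (F : MvPolynomial κ L), translate a F = 0 → F = 0 := by
    intro κ a F h
    apply MvPolynomial.funext
    intro z
    have := eval_translate a (z - a) F
    rw [h, sub_add_cancel] at this
    rw [← this]
    simp
  rcases mul_eq_zero.mp hprod with h | h
  · exact hinj _ _ h
  · exfalso
    apply hyne
    apply hinj t₀
    exact rename_injective _ Sum.inr_injective (by rw [h, map_zero])

end Pool.Agent.Helper92.RK
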