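import Mathlib
import Pool.Agent.Helper92.RK.Basic

/-!
# Hypersurfaces of degree two in `r` variables over a base: values and derivatives
-/

namespace Pool.Agent.Helper92.RK

open MvPolynomial

variable {b : ℕ} {M : Finset (Fin b →₀ ℕ)}

theorem map_form {R S : Type*} [CommRing R] [CommRing S] {r : ℕ} (φ : R →+* S) (a : Ix r M → R) :
    map φ (form a) = form fun e => φ (a e) := by
  unfold form
  simp only [map_sum, map_mul, map_C, map_prod, map_pow, map_X]

theorem eval_form {R : Type*} [CommRing R] {r : ℕ} (a : Ix r M → R) (x : Fin r → R)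
    (t : Fin b → R) :
    eval (Sum.elim x t) (form a) = ∑ β : M, cf a x β * ∏ j, t j ^ (β : Fin b →₀ ℕ) j := by
  unfold form cf
  simp only [map_sum, map_mul, eval_C, map_prod, map_pow, eval_X, Sum.elim_inl, Sum.elim_inr]
  rw [Fintype.sum_prod_type_right]
  refine Finset.sum_congr rfl fun β _ => ?_
  rw [Finset.sum_mul]
  refine Finset.sum_congr rfl fun e _ => ?_
  ring

theorem degreeOf_form {R : Type*} [CommRing R] [Nontrivial R] {r : ℕ} (a : Ix r M → R)
    (i : Fin r) : (form a).degreeOf (.inl i) ≤ 2 := by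
  classical
  unfold form
  refine (degreeOf_sum_le _ _ _).trans (Finset.sup_le fun e _ => ?_)
  refine (degreeOf_C_mul_le _ _ _).trans ((degreeOf_mul_le _ _ _).trans ?_)
  have h1 : degreeOf (Sum.inl i) (∏ i' : Fin r, (X (.inl i') : MvPolynomial (Fin r ⊕ Fin b) R) ^
      (e.1 i' : ℕ)) ≤ 2 := by
    refine (degreeOf_prod_le _ _ _).trans ?_
    calc ∑ i' : Fin r, degreeOf (Sum.inl i) ((X (.inl i') : MvPolynomial (Fin r ⊕ Fin b) R) ^
          (e.1 i' : ℕ)) ≤ ∑ i' : Fin r, if i' = i then (e.1 i' : ℕ) else 0 := by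
          refine Finset.sum_le_sum fun i' _ => (degreeOf_pow_le _ _ _).trans ?_
          by_cases h : i' = i
          · subst h
            rw [if_pos rfl, degreeOf_X_self, mul_one]
          · rw [degreeOf_X_of_ne (by simpa using Ne.symm h), mul_zero]
            exact Nat.zero_le _
      _ ≤ 2 := by
          rw [Finset.sum_ite_eq']
          split_ifs
          · have := (e.1 i).2
            omega
          · omega
  have h2 : degreeOf (Sum.inl i) (∏ j : Fin b, (X (.inr j) : MvPolynomial (Fin r ⊕ Fin b) R) ^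
      (e.2 : Fin b →₀ ℕ) j) ≤ 0 := by
    refine (degreeOf_prod_le _ _ _).trans ?_
    refine (Finset.sum_eq_zero fun j _ => ?_).le
    refine Nat.le_zero.mp ((degreeOf_pow_le _ _ _).trans ?_)
    rw [degreeOf_X_of_ne (by simp), mul_zero]
  omega

theorem degreeOf_dis {R : Type*} [CommRing R] [Nontrivial R] {s : ℕ} (a : Ix (s + 1) M → R)
    (i : Fin s) : (dis a).degreeOf (.inl i) ≤ 4 := by
  classical
  unfold dis
  refine (degreeOf_sub_le _ _ _).trans (max_le ?_ ?_)
  · refine (degreeOf_pow_le _ _ _).trans ?_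
    have := degreeOf_form (sub 1 a) i
    omega
  · refine (degreeOf_mul_le _ _ _).trans ?_
    have h1 : degreeOf (.inl i) (4 * form (sub 2 a)) ≤ 2 := by
      have : (4 : MvPolynomial (Fin s ⊕ Fin b) R) = C 4 := (map_ofNat C 4).symm
      rw [this]
      exact (degreeOf_C_mul_le _ _ _).trans (degreeOf_form _ i)
    have h2 := degreeOf_form (sub 0 a) i
    omega

section point

variable {R : Type*} [CommRing R] {s : ℕ} (a : Ix (s + 1) M → R) (P : Fin (s + 1) → R)
  (t : Fin b → R)

/-- The first coordinates. -/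
def ini (P : Fin (s + 1) → R) : Fin s → R := fun i => P i.castSucc

theorem eval_ren (F : MvPolynomial (Fin s ⊕ Fin b) R) :
    eval (Sum.elim P t) (rename (Sum.map Fin.castSucc id) F) = eval (Sum.elim (ini P) t) F := by
  rw [eval_rename]
  congr 2
  funext i
  rcases i with i | i <;> rfl

theorem eval_F : eval (Sum.elim P t) (form a) =
    eval (Sum.elim (ini P) t) (form (sub 0 a)) +
    eval (Sum.elim (ini P) t) (form (sub 1 a)) * P (Fin.last s) +
    eval (Sum.elim (ini P) t) (form (sub 2 a)) * P (Fin.last s) ^ 2 := by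
  rw [form_eq, map_sum, Fin.sum_univ_three]
  simp only [map_mul, map_pow, eval_ren, eval_X, Sum.elim_inl]
  simp

theorem pderiv_ren_last (F : MvPolynomial (Fin s ⊕ Fin b) R) :
    pderiv (.inl (Fin.last s)) (rename (Sum.map Fin.castSucc id) F) =
      (0 : MvPolynomial (Fin (s + 1) ⊕ Fin b) R) := by
  classical
  induction F using MvPolynomial.induction_on with
  | C r => simp
  | add p q hp hq => simp only [map_add, hp, hq, add_zero]
  | mul_X p i hp =>
    rw [map_mul, rename_X, Derivation.leibniz, hp, smul_zero, add_zero, pderiv_X_of_ne, smul_zero]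
    rcases i with i | i
    · simp only [Sum.map_inl, ne_eq, Sum.inl.injEq]
      exact (Fin.castSucc_lt_last i).ne
    · simp

theorem pderiv_ren (F : MvPolynomial (Fin s ⊕ Fin b) R) (i : Fin s) :
    pderiv (.inl i.castSucc) (rename (Sum.map Fin.castSucc id) F) =
      (rename (Sum.map Fin.castSucc id) (pderiv (.inl i) F) :
        MvPolynomial (Fin (s + 1) ⊕ Fin b) R) := by
  have := pderiv_rename (R := R) (f := (Sum.map Fin.castSucc id : Fin s ⊕ Fin b →
    Fin (s + 1) ⊕ Fin b)) (Sum.map_injective.mpr ⟨Fin.castSucc_injective s,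
      Function.injective_id⟩) (.inl i) F
  exact this

theorem eval_dlast : eval (Sum.elim P t) (pderiv (.inl (Fin.last s)) (form a)) =
    eval (Sum.elim (ini P) t) (form (sub 1 a)) +
    2 * eval (Sum.elim (ini P) t) (form (sub 2 a)) * P (Fin.last s) := by
  rw [form_eq, map_sum, Fin.sum_univ_three]
  simp only [Derivation.leibniz, pderiv_ren_last, Derivation.leibniz_pow, pderiv_X_self,
    smul_eq_mul, map_add, map_mul, map_pow, eval_ren, eval_X, Sum.elim_inl, mul_zero]
  simp
  ring

theorem eval_di (i : Fin s) : eval (Sum.elim P t) (pderiv (.inl i.castSucc) (form a)) =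
    eval (Sum.elim (ini P) t) (pderiv (.inl i) (form (sub 0 a))) +
    eval (Sum.elim (ini P) t) (pderiv (.inl i) (form (sub 1 a))) * P (Fin.last s) +
    eval (Sum.elim (ini P) t) (pderiv (.inl i) (form (sub 2 a))) * P (Fin.last s) ^ 2 := by
  classical
  have h : (Sum.inl (Fin.last s) : Fin (s + 1) ⊕ Fin b) ≠ .inl i.castSucc := by
    simp only [ne_eq, Sum.inl.injEq]
    exact (Fin.castSucc_lt_last i).ne'
  rw [form_eq, map_sum, Fin.sum_univ_three]
  simp only [Derivation.leibniz, pderiv_ren, Derivation.leibniz_pow, pderiv_X_of_ne h,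
    smul_eq_mul, map_add, map_mul, map_pow, eval_ren, eval_X, Sum.elim_inl, smul_zero, mul_zero,
    map_zero, zero_add]
  simp
  ring

theorem eval_dis (h : eval (Sum.elim P t) (form a) = 0) :
    eval (Sum.elim (ini P) t) (dis a) =
      eval (Sum.elim P t) (pderiv (.inl (Fin.last s)) (form a)) ^ 2 := by
  rw [eval_F] at h
  rw [eval_dlast]
  unfold dis
  simp only [map_sub, map_mul, map_pow, map_ofNat]
  linear_combination (-4 * eval (Sum.elim (ini P) t) (form (sub 2 a))) * h

theorem eval_ddis (h : eval (Sum.elim P t) (form a) = 0)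
    (h' : eval (Sum.elim P t) (pderiv (.inl (Fin.last s)) (form a)) = 0) (i : Fin s) :
    eval (Sum.elim (ini P) t) (pderiv (.inl i) (dis a)) =
      -4 * eval (Sum.elim (ini P) t) (form (sub 2 a)) *
        eval (Sum.elim P t) (pderiv (.inl i.castSucc) (form a)) := by
  rw [eval_F] at h
  rw [eval_dlast] at h'
  rw [eval_di]
  have h4 : pderiv (.inl i) (4 : MvPolynomial (Fin s ⊕ Fin b) R) = 0 := by
    rw [← map_ofNat C 4, pderiv_C]
  unfold dis
  simp only [map_sub, Derivation.leibniz, Derivation.leibniz_pow, smul_eq_mul, map_add, map_mul,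
    h4, mul_zero, add_zero, nsmul_eq_mul, Nat.cast_ofNat, Nat.add_one_sub_one,
    pow_one, map_ofNat]
  generalize eval (Sum.elim (ini P) t) (form (sub 2 a)) = A at *
  generalize eval (Sum.elim (ini P) t) (form (sub 1 a)) = B at *
  generalize eval (Sum.elim (ini P) t) (form (sub 0 a)) = C₀ at *
  generalize eval (Sum.elim (ini P) t) (pderiv (.inl i) (form (sub 2 a))) = A' at *
  generalize eval (Sum.elim (ini P) t) (pderiv (.inl i) (form (sub 1 a))) = B' at *
  generalize eval (Sum.elim (ini P) t) (pderiv (.inl i) (form (sub 0 a))) = C' at *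
  generalize P (Fin.last s) = x at *
  linear_combination (2 * B' + 4 * A' * x) * h' - 4 * A' * h

end point

end Pool.Agent.Helper92.RK
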