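import Mathlib
import Pool.Agent.Helper15.NumField
import Pool.Agent.Helper15.PotDense
import Pool.Agent.Helper16.R.Bezout
import Pool.Agent.Helper60.RK.Cop
import Pool.Agent.Helper64.RK.Prime
import Pool.Agent.Helper92.RK.Dense
import Pool.Agent.Helper92.RK.Point

/-!
# Hypersurfaces of degree two in `r` variables over a base: from the density of the points of the
double cover to the theorem
-/

namespace Pool.Agent.Helper92.RK

open MvPolynomial AlgebraicGeometry CategoryTheory Pool.Agent.Helper15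
open Pool.Agent.Helper60.RK (coprime_gen)
open Pool.Agent.Helper64.RK (prime_of)
open Pool.Agent.Helper16.R (bezout)

variable {b : ℕ} {M : Finset (Fin b →₀ ℕ)}

theorem form_sub_map {K L : Type} [Field K] [Field L] {s : ℕ} (φ : K →+* L) (j : Fin 3)
    (a : Ix (s + 1) M → K) : map φ (form (sub j a)) = form (sub j fun e => φ (a e)) := by
  rw [map_form]
  rfl

theorem map_dis {K L : Type} [Field K] [Field L] {s : ℕ} (φ : K →+* L)
    (a : Ix (s + 1) M → K) : map φ (dis a) = dis fun e => φ (a e) := by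
  unfold dis
  rw [map_sub, map_pow, map_mul, map_mul, form_sub_map, form_sub_map, form_sub_map, map_ofNat]

/-- The points over `L` at which the discriminant is a square are Zariski dense. -/
def DnL (K L : Type) [Field K] [Field L] [Algebra K L] {s : ℕ} (a : Ix (s + 1) M → K) : Prop :=
  ∀ G : MvPolynomial (Fin s ⊕ Fin b) L, G ≠ 0 →
    ∃ z, (∃ u, u ^ 2 = MvPolynomial.eval z (dis fun e => algebraMap K L (a e))) ∧
      MvPolynomial.eval z G ≠ 0

/-- The dense set of points of the hypersurface. -/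
theorem points {K L : Type} [Field K] [CharZero K] [Field L] [CharZero L] [Algebra K L]
    {s : ℕ} (a : Ix (s + 1) M → K) (hd : DnL K L a)
    (hc : IsRelPrime (form (sub 2 a)) (form (sub 1 a))) (hA : form (sub 2 a) ≠ 0)
    (hq : ∀ g : MvPolynomial (Fin s ⊕ Fin b) K, g ^ 2 ≠ dis a)
    (g : MvPolynomial (Fin (s + 1) ⊕ Fin b) K ⧸ Ideal.span {form a})
    (hg : ∀ φ : (MvPolynomial (Fin (s + 1) ⊕ Fin b) K ⧸ Ideal.span {form a}) →ₐ[K] L, φ g = 0) :
    g = 0 := by
  obtain ⟨h, rfl⟩ := Ideal.Quotient.mk_surjective g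
  rw [Ideal.Quotient.eq_zero_iff_mem]
  by_contra hh
  have hinj := (algebraMap K L).injective
  obtain ⟨g, u, v, hg0, huv⟩ := bezout a hc hA hq h hh
  have hG : map (algebraMap K L) g * form (sub 2 fun e => algebraMap K L (a e)) ≠ 0 := by
    refine mul_ne_zero ?_ ?_
    · intro h0
      exact hg0 (map_injective _ hinj (by rw [h0, map_zero]))
    · rw [← form_sub_map]
      intro h0
      exact hA (map_injective _ hinj (by rw [h0, map_zero]))
  obtain ⟨z, ⟨w, hw⟩, hz⟩ := hd _ hG
  rw [map_mul] at hz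
  set A := MvPolynomial.eval z (form (sub 2 fun e => algebraMap K L (a e))) with hAdef
  have hA0 : A ≠ 0 := right_ne_zero_of_mul hz
  set B := MvPolynomial.eval z (form (sub 1 fun e => algebraMap K L (a e))) with hBdef
  set C₀ := MvPolynomial.eval z (form (sub 0 fun e => algebraMap K L (a e))) with hCdef
  set Q : Fin (s + 1) → L := Fin.snoc (α := fun _ => L) (z ∘ Sum.inl) ((w - B) / (2 * A)) with hQ
  have hini : ini Q = z ∘ Sum.inl := by
    funext i
    simp [ini, hQ]
  have hlast : Q (Fin.last s) = (w - B) / (2 * A) := by simp [hQ]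
  have hz' : Sum.elim (ini Q) (z ∘ Sum.inr) = z := by
    rw [hini, Sum.elim_comp_inl_inr]
  have hF : MvPolynomial.eval (Sum.elim Q (z ∘ Sum.inr))
      (form fun e => algebraMap K L (a e)) = 0 := by
    rw [eval_F, hz', hlast, ← hAdef, ← hBdef, ← hCdef]
    have hd : w ^ 2 = B ^ 2 - 4 * A * C₀ := by
      rw [hw]
      unfold dis
      simp only [map_sub, map_mul, map_pow, map_ofNat]
      rfl
    field_simp
    linear_combination hd
  let φ₀ : MvPolynomial (Fin (s + 1) ⊕ Fin b) K →ₐ[K] L := aeval (Sum.elim Q (z ∘ Sum.inr))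
  have hφ : ∀ F : MvPolynomial (Fin (s + 1) ⊕ Fin b) K, φ₀ F =
      MvPolynomial.eval (Sum.elim Q (z ∘ Sum.inr)) (map (algebraMap K L) F) := by
    intro F
    rw [MvPolynomial.eval_map, ← aeval_def]
  have hker : ∀ F ∈ Ideal.span {form a}, φ₀ F = 0 := by
    intro F hFm
    rw [Ideal.mem_span_singleton] at hFm
    obtain ⟨F', rfl⟩ := hFm
    rw [map_mul, hφ, map_form, hF, zero_mul]
  let φ : (MvPolynomial (Fin (s + 1) ⊕ Fin b) K ⧸ Ideal.span {form a}) →ₐ[K] L :=
    Ideal.Quotient.liftₐ _ φ₀ hker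
  have h1 : φ₀ h = 0 := hg φ
  have h2 : φ₀ (rename (Sum.map Fin.castSucc id) g) = 0 := by
    rw [← huv, map_add, map_mul, map_mul, h1, mul_zero, add_zero,
      hker _ (Ideal.mem_span_singleton_self _), mul_zero]
  rw [hφ, map_rename, eval_ren, hz'] at h2
  exact left_ne_zero_of_mul hz h2

/-- The theorem from the density of the points. -/
theorem assemble {s : ℕ} (h0 : 0 ∈ M)
    (H : ∃ Δ : MvPolynomial (Ix (s + 1) M) ℚ, Δ ≠ 0 ∧
      ∀ (K : Type) [Field K] [NumberField K] (a : Ix (s + 1) M → K), aeval a Δ ≠ 0 →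
        form (sub 2 a) ≠ 0 ∧ (∀ g : MvPolynomial (Fin s ⊕ Fin b) K, g ^ 2 ≠ dis a) ∧
        ∃ (L : Type) (_ : Field L) (_ : Algebra K L) (_ : FiniteDimensional K L), DnL K L a) :
    ∃ Δ : MvPolynomial (Ix (s + 1) M) ℚ, Δ ≠ 0 ∧
    ∀ (K : Type) [Field K] [NumberField K] (a : Ix (s + 1) M → K), aeval a Δ ≠ 0 →
      (Ideal.span {form a}).IsPrime ∧
      ∀ (X : Scheme.{0}) (s' : X ⟶ Spec (CommRingCat.of K)) [IrreducibleSpace X],
        BirationalOver K X (Spec (CommRingCat.of
          (MvPolynomial (Fin (s + 1) ⊕ Fin b) K ⧸ Ideal.span {form a}))) s'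
          (Spec.map (CommRingCat.ofHom
            (algebraMap K (MvPolynomial (Fin (s + 1) ⊕ Fin b) K ⧸ Ideal.span {form a})))) →
        PotentiallyDense K X s' := by
  obtain ⟨Δ₁, hΔ₁, H₁⟩ := H
  obtain ⟨Δ₂, hΔ₂, H₂⟩ := coprime_gen (s := s) h0
  set f : Ix s M ⊕ Ix s M → Ix (s + 1) M := Sum.elim
    (fun e => (Fin.snoc (α := fun _ => Fin 3) e.1 2, e.2))
    (fun e => (Fin.snoc (α := fun _ => Fin 3) e.1 1, e.2)) with hf
  have hfinj : Function.Injective f := by
    have key : ∀ (e e' : Ix s M) (j j' : Fin 3),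
        ((Fin.snoc (α := fun _ => Fin 3) e.1 j, e.2) : Ix (s + 1) M) =
        (Fin.snoc (α := fun _ => Fin 3) e'.1 j', e'.2) → e = e' ∧ j = j' := by
      intro e e' j j' h
      obtain ⟨h3, h4⟩ := Prod.mk.inj h
      refine ⟨Prod.ext ?_ h4, ?_⟩
      · funext i
        have := congrFun h3 i.castSucc
        simpa using this
      · have := congrFun h3 (Fin.last s)
        simpa using this
    intro x y hxy
    rcases x with x | x <;> rcases y with y | y
    · exact congrArg _ (key _ _ _ _ hxy).1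
    · exact absurd (key _ _ _ _ hxy).2 (by decide)
    · exact absurd (key _ _ _ _ hxy).2 (by decide)
    · exact congrArg _ (key _ _ _ _ hxy).1
  refine ⟨Δ₁ * rename f Δ₂, mul_ne_zero hΔ₁ ?_, fun K _ _ a ha => ?_⟩
  · intro h
    exact hΔ₂ (rename_injective f hfinj (by rw [h, map_zero]))
  rw [map_mul] at ha
  have ha1 := left_ne_zero_of_mul ha
  have ha2 := right_ne_zero_of_mul ha
  rw [aeval_rename] at ha2
  have hc : IsRelPrime (form (sub 2 a)) (form (sub 1 a)) := by
    refine H₂ K (sub 2 a) (sub 1 a) ?_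
    have : Sum.elim (sub 2 a) (sub 1 a) = a ∘ f := by
      funext x
      rcases x with x | x <;> rfl
    rw [this]
    exact ha2
  obtain ⟨hA, hq, L, _, _, _, hd⟩ := H₁ K a ha1
  have : CharZero L := charZero_of_injective_algebraMap (algebraMap K L).injective
  refine ⟨prime_of a hc hA hq, fun X s' _ hX => ?_⟩
  refine PotentiallyDense.of_birational K X _ s' _ hX ?_
  exact ⟨L, inferInstance, inferInstance, inferInstance,
    dense_ratPts_spec K L _ fun g hg => points a hd hc hA hq g hg⟩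

end Pool.Agent.Helper92.RK
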