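import Mathlib
import Pool.Agent.Helper16.R.Good
import Pool.Agent.Helper92.RK.Glue

/-!
# Hypersurfaces of degree two in `r` variables over a base: the theorem for constant sections
-/

namespace Pool.Agent.Helper92.RK

open MvPolynomial AlgebraicGeometry CategoryTheory Pool.Agent.Helper15
open Pool.Agent.Helper16.R (exists_good)

variable {b : ℕ} {M : Finset (Fin b →₀ ℕ)}

/-- The data of a good point. -/
structure GoodPt {L : Type} [Field L] {s : ℕ} (a : Ix (s + 1) M → L) (P : Fin (s + 1) → L)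
    (t₀ : Fin b → L) : Prop where
  cf : ∀ β, cf a P β = 0
  last : MvPolynomial.eval (Sum.elim P t₀) (pderiv (.inl (Fin.last s)) (form a)) = 0
  ne : ∀ i : Fin s,
    MvPolynomial.eval (Sum.elim P t₀) (pderiv (.inl i.castSucc) (form a)) ≠ 0
  lead : MvPolynomial.eval (Sum.elim (ini P) t₀) (form (sub 2 a)) ≠ 0
  ex : ∃ t₁ : Fin b → L,
    MvPolynomial.eval (Sum.elim P t₁) (pderiv (.inl (Fin.last s)) (form a)) ≠ 0

section

variable {L : Type} [Field L] {s : ℕ} {a : Ix (s + 1) M → L} {P : Fin (s + 1) → L}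
  {t₀ : Fin b → L}

theorem GoodPt.form_zero (h : GoodPt a P t₀) (t : Fin b → L) :
    MvPolynomial.eval (Sum.elim P t) (form a) = 0 := by
  rw [eval_form]
  exact Finset.sum_eq_zero fun β _ => by rw [h.cf β, zero_mul]

theorem GoodPt.dis_ne [CharZero L] (h : GoodPt a P t₀) (i : Fin s) :
    MvPolynomial.eval (Sum.elim (ini P) t₀) (pderiv (.inl i) (dis a)) ≠ 0 := by
  rw [eval_ddis a P t₀ (h.form_zero t₀) h.last]
  exact mul_ne_zero (mul_ne_zero (by norm_num) h.lead) (h.ne i)

/-- Specialisation of the variables `x`. -/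
noncomputable def yy (P : Fin (s + 1) → L) (F : MvPolynomial (Fin (s + 1) ⊕ Fin b) L) :
    MvPolynomial (Fin b) L :=
  aeval (Sum.elim (fun i => C (P i)) X) F

theorem eval_yy (P : Fin (s + 1) → L) (F : MvPolynomial (Fin (s + 1) ⊕ Fin b) L)
    (t : Fin b → L) :
    MvPolynomial.eval t (yy P F) = MvPolynomial.eval (Sum.elim P t) F := by
  unfold yy
  induction F using MvPolynomial.induction_on with
  | C r => simp
  | add p q hp hq => simp only [map_add, hp, hq]
  | mul_X p i hp =>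
    rw [map_mul, map_mul, hp, map_mul, aeval_X, eval_X]
    congr 1
    rcases i with i | i
    · rw [Sum.elim_inl, Sum.elim_inl, eval_C]
    · rw [Sum.elim_inr, Sum.elim_inr, eval_X]

/-- Density of the points. -/
theorem GoodPt.dense [NumberField L] (h : GoodPt a P t₀) (G : MvPolynomial (Fin s ⊕ Fin b) L)
    (hG : G ≠ 0) : ∃ z, (∃ u, u ^ 2 = MvPolynomial.eval z (dis a)) ∧
      MvPolynomial.eval z G ≠ 0 := by
  have : Fact (Nat.Prime 3) := ⟨Nat.prime_three⟩
  obtain ⟨v, h3, h30⟩ := exists_valuation 3 L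
  push_cast at h3 h30
  by_contra hcon
  push Not at hcon
  apply hG
  refine dense_sq v h3 h30 (dis a) (degreeOf_dis a) (ini P) t₀
    (yy P (pderiv (.inl (Fin.last s)) (form a))) (fun t => ?_) ?_ ?_ h.dis_ne G ?_
  · rw [eval_yy, eval_dis a P t (h.form_zero t)]
  · rw [eval_yy, h.last]
  · intro h0
    obtain ⟨t₁, ht₁⟩ := h.ex
    apply ht₁
    rw [← eval_yy, h0, map_zero]
  · rintro z ⟨u, hu⟩
    exact hcon z ⟨u, hu⟩

end

/-- A polynomial with a zero at which some partial derivative does not vanish is not a square. -/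
theorem not_sq {K L : Type} [Field K] [Field L] [Algebra K L] {σ : Type*}
    (q : MvPolynomial σ K) (z : σ → L) (i : σ)
    (h0 : MvPolynomial.eval z (map (algebraMap K L) q) = 0)
    (h1 : MvPolynomial.eval z (pderiv i (map (algebraMap K L) q)) ≠ 0) (g : MvPolynomial σ K) :
    g ^ 2 ≠ q := by
  rintro rfl
  apply h1
  rw [map_pow, map_pow] at h0
  have h2 := pow_eq_zero_iff (two_ne_zero) |>.mp h0
  rw [map_pow, Derivation.leibniz_pow]
  simp [h2]

/-- **The theorem.** -/
theorem main {r : ℕ} (h0 : 0 ∈ M) (h2 : 2 ≤ M.card) (hr : M.card ≤ r) :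
    ∃ Δ : MvPolynomial (Ix r M) ℚ, Δ ≠ 0 ∧
    ∀ (K : Type) [Field K] [NumberField K] (a : Ix r M → K), aeval a Δ ≠ 0 →
      (Ideal.span {form a}).IsPrime ∧
      ∀ (X : Scheme.{0}) (s : X ⟶ Spec (CommRingCat.of K)) [IrreducibleSpace X],
        BirationalOver K X (Spec (CommRingCat.of
          (MvPolynomial (Fin r ⊕ Fin b) K ⧸ Ideal.span {form a}))) s
          (Spec.map (CommRingCat.ofHom
            (algebraMap K (MvPolynomial (Fin r ⊕ Fin b) K ⧸ Ideal.span {form a})))) →
        PotentiallyDense K X s := by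
  obtain ⟨s, rfl⟩ : ∃ s, r = s + 1 := ⟨r - 1, by omega⟩
  obtain ⟨Δ₁, hΔ₁, H₁⟩ := exists_good (s := s) h0 h2 hr
  refine assemble h0 ⟨Δ₁, hΔ₁, fun K _ _ a ha => ?_⟩
  obtain ⟨L, _, _, _, _, P, t₀, g1, g2, g3, g4, g5⟩ := H₁ K a ha
  have hL : NumberField L := NumberField.of_module_finite K L
  have hP : GoodPt (fun e => algebraMap K L (a e)) P t₀ := ⟨g1, g2, g3, g4, g5⟩
  have i : Fin s := ⟨0, by omega⟩
  refine ⟨?_, ?_, L, inferInstance, inferInstance, inferInstance, hP.dense⟩
  · intro h0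
    apply hP.lead
    have := form_sub_map (algebraMap K L) 2 a
    rw [h0, map_zero] at this
    rw [← this, map_zero]
  · refine not_sq (dis a) (Sum.elim (ini P) t₀) (.inl i) ?_ ?_
    · rw [map_dis, eval_dis _ P t₀ (hP.form_zero t₀), hP.last]
      ring
    · rw [map_dis]
      exact hP.dis_ne i

end Pool.Agent.Helper92.RK
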