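import Mathlib
import Pool.Agent.Helper37.PD.Family
import Pool.Agent.Helper92.RK.Glue

/-!
# Hypersurfaces of degree two in `r` variables over a line: points from a double section
-/

namespace Pool.Agent.Helper92.RK

open MvPolynomial AlgebraicGeometry CategoryTheory Pool.Agent.Helper15

section one

variable {L : Type*} [Field L]

/-- A polynomial in one variable. -/
noncomputable def mv (G : Polynomial L) : MvPolynomial (Fin 1) L :=
  Polynomial.aeval (X 0 : MvPolynomial (Fin 1) L) G

theorem eval_mv (G : Polynomial L) (t : Fin 1 → L) :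
    MvPolynomial.eval t (mv G) = G.eval (t 0) := by
  have h := Polynomial.aeval_algHom_apply (aeval t : MvPolynomial (Fin 1) L →ₐ[L] L)
    (X 0 : MvPolynomial (Fin 1) L) G
  rw [aeval_X] at h
  rw [← coe_aeval_eq_eval]
  exact h.symm.trans (by rw [Polynomial.coe_aeval_eq_eval])

theorem pderiv_mv (G : Polynomial L) (i : Fin 1) :
    pderiv i (mv G) = mv (Polynomial.derivative G) := by
  obtain rfl : i = 0 := Subsingleton.elim _ _
  unfold mv
  rw [Derivation.map_aeval, pderiv_X_self, smul_eq_mul, mul_one]

theorem degreeOf_mv (G : Polynomial L) (i : Fin 1) : degreeOf i (mv G) ≤ G.natDegree := by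
  classical
  unfold mv
  rw [Polynomial.aeval_eq_sum_range]
  refine (degreeOf_sum_le _ _ _).trans (Finset.sup_le fun k hk => ?_)
  rw [Finset.mem_range] at hk
  rw [smul_eq_C_mul]
  refine (degreeOf_C_mul_le _ _ _).trans ((degreeOf_pow_le _ _ _).trans ?_)
  obtain rfl : i = 0 := Subsingleton.elim _ _
  rw [degreeOf_X_self]
  omega

theorem mv_ne [Infinite L] {G : Polynomial L} (h : G ≠ 0) : mv G ≠ 0 := by
  intro h0
  apply h
  refine Polynomial.funext fun t => ?_
  rw [← eval_mv G fun _ => t, h0, map_zero, Polynomial.eval_zero]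

end one

theorem map_aeval_C {L Ω σ τ : Type*} [Field L] [Field Ω] [Algebra L Ω] (f : τ → L)
    (F : MvPolynomial (σ ⊕ τ) L) :
    aeval (Sum.elim (fun i => (X i : MvPolynomial σ Ω)) fun j => C (algebraMap L Ω (f j))) F =
      map (algebraMap L Ω) (aeval (Sum.elim X fun j => C (f j)) F) := by
  induction F using MvPolynomial.induction_on with
  | C r =>
    rw [algHom_C, algHom_C, algebraMap_eq, map_C]
    rfl
  | add p q hp hq => simp only [map_add, hp, hq]
  | mul_X p i hp =>
    simp only [map_mul, hp, aeval_X]
    rcases i with i | i <;> simp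

/-- The density of the points from a double section. -/
theorem dense_ms {K L : Type} [Field K] [Field L] [NumberField L] [Algebra K L]
    [FiniteDimensional K L] {s : ℕ} {M : Finset (Fin 1 →₀ ℕ)} (a : Ix (s + 1) M → K)
    (c : Fin s → L) (G H : Polynomial L) (t₀ : L)
    (h : ∀ t, MvPolynomial.eval (Sum.elim c fun _ => t) (dis fun e => algebraMap K L (a e)) =
      G.eval t * H.eval t ^ 2)
    (hG : G.natDegree ≤ 4) (hH : H ≠ 0) (h0 : G.eval t₀ = 0)
    (h1 : (Polynomial.derivative G).eval t₀ ≠ 0)
    (hx : ∀ i : Fin s, MvPolynomial.eval (Sum.elim c fun _ => t₀) (pderiv (.inl i)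
      (dis fun e => algebraMap K L (a e))) ≠ 0) :
    ∃ (L' : Type) (_ : Field L') (_ : Algebra K L') (_ : FiniteDimensional K L'), DnL K L' a := by
  set D := dis fun e => algebraMap K L (a e) with hD
  have hsw : Function.Injective (Sum.swap : Fin s ⊕ Fin 1 → Fin 1 ⊕ Fin s) :=
    Sum.swap_leftInverse.injective
  set F : MvPolynomial (Fin 1 ⊕ Fin s) L := rename Sum.swap D with hF
  have hpd : ∀ j : Fin s, pderiv (Sum.inr j) F = rename Sum.swap (pderiv (Sum.inl j) D) := by
    intro j
    exact pderiv_rename hsw (.inl j) D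
  have hswe : ∀ (y : Fin 1 → L) (x : Fin s → L),
      (Sum.elim y x) ∘ (Sum.swap : Fin s ⊕ Fin 1 → Fin 1 ⊕ Fin s) = Sum.elim x y := by
    intro y x
    funext i
    rcases i with i | i <;> rfl
  set ι := algebraMap L (AlgebraicClosure L) with hι
  have key : aeval (Sum.elim X fun j => C (c j)) F = mv G * mv H ^ 2 := by
    refine MvPolynomial.funext fun t => ?_
    rw [map_mul, map_pow, eval_mv, eval_mv, ← h (t 0)]
    have e1 : MvPolynomial.eval t (aeval (Sum.elim X fun j => C (c j)) F) =
        MvPolynomial.eval (Sum.elim t c) F := by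
      induction F using MvPolynomial.induction_on with
      | C r => simp
      | add p q hp hq => simp only [map_add, hp, hq]
      | mul_X p i hp =>
        simp only [map_mul, hp, aeval_X, eval_X]
        rcases i with i | i <;> simp
    rw [e1, hF, eval_rename, hswe]
    congr 2
    funext i
    rcases i with i | i
    · rfl
    · rw [Sum.elim_inr, Sum.elim_inr, Subsingleton.elim i 0]
  obtain ⟨E, hE, HE⟩ := Helper37.PD.family_numberField L F
    (fun j => by
      have := degreeOf_rename_of_injective (p := D) hsw (.inl j)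
      exact this.le.trans (degreeOf_dis _ j))
    (fun i => X i) (fun j => C (ι (c j))) (map ι (mv G)) (map ι (mv H))
    (by rw [map_aeval_C, key, map_mul, map_pow])
    (fun i => by
      rw [degreeOf_le_iff]
      intro m hm
      exact (degreeOf_le_iff.mp ((degreeOf_mv G i).trans hG)) m (support_map_subset _ _ hm))
    (by
      intro h2
      exact mv_ne hH (map_injective ι ι.injective (by rw [h2, map_zero])))
    (algebraicIndependent_X _ _) (fun _ => ι t₀)
    (by
      have := Helper37.PD.ringHom_eval ι (fun _ => t₀) (mv G)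
      rw [← this, eval_mv, h0, map_zero])
    (fun i => by
      have := Helper37.PD.ringHom_eval ι (fun _ => t₀) (mv (Polynomial.derivative G))
      rw [pderiv_map, pderiv_mv, ← this, eval_mv]
      exact (map_ne_zero ι).mpr h1)
    (fun j => by
      have e1 := Helper37.PD.ringHom_eval ι (Sum.elim (fun _ => t₀) c) (pderiv (Sum.inr j) F)
      have e2 : (Sum.elim (fun a : Fin 1 => MvPolynomial.eval (fun _ => ι t₀)
          (X a : MvPolynomial (Fin 1) (AlgebraicClosure L)))
          (fun j => MvPolynomial.eval (fun _ : Fin 1 => ι t₀) (C (ι (c j))))) =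
          fun i => ι (Sum.elim (fun _ => t₀) c i) := by
        funext i
        rcases i with i | i <;> simp
      rw [e2, aeval_def, ← hι, ← MvPolynomial.eval_map, ← e1]
      refine (map_ne_zero ι).mpr ?_
      rw [hpd, eval_rename, hswe]
      exact hx j)
  have hKE : FiniteDimensional K E := FiniteDimensional.trans K L E
  refine ⟨E, inferInstance, inferInstance, inferInstance, fun G' hG' => ?_⟩
  by_contra hcon
  push Not at hcon
  apply hG'
  have hg : rename Sum.swap G' = (0 : MvPolynomial (Fin 1 ⊕ Fin s) E) := by
    refine HE _ fun x ⟨u, _, hu⟩ => ?_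
    rw [eval_rename]
    refine hcon (x ∘ Sum.swap) ⟨u, ?_⟩
    rw [hu, aeval_def, ← MvPolynomial.eval_map, hF, map_rename, eval_rename, hD, map_dis]
    have e3 : ∀ e, algebraMap K E (a e) = algebraMap L E (algebraMap K L (a e)) := fun e =>
      IsScalarTower.algebraMap_apply K L E (a e)
    simp only [e3]
  exact rename_injective _ hsw (by rw [hg, map_zero])

end Pool.Agent.Helper92.RK
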