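import Mathlib
import Pool.Agent.Helper60.RK.Ms5
import Pool.Agent.Helper92.RK.Main
import Pool.Agent.Helper92.RK.Ms

/-!
# Hypersurfaces of degree two in `r` variables over a line: the theorem for double sections
-/

namespace Pool.Agent.Helper92.RK

open MvPolynomial AlgebraicGeometry CategoryTheory Pool.Agent.Helper15
open Pool.Agent.Helper60.RK (exists_ms M1)

/-- **The theorem** over a line. -/
theorem main2 {r m : ℕ} (hr : 2 ≤ r) (hm : 3 ≤ m) (hmr : m ≤ r + 1) :
    ∃ Δ : MvPolynomial (Ix r (M1 m)) ℚ, Δ ≠ 0 ∧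
    ∀ (K : Type) [Field K] [NumberField K] (a : Ix r (M1 m) → K), aeval a Δ ≠ 0 →
      (Ideal.span {form a}).IsPrime ∧
      ∀ (X : Scheme.{0}) (s : X ⟶ Spec (CommRingCat.of K)) [IrreducibleSpace X],
        BirationalOver K X (Spec (CommRingCat.of
          (MvPolynomial (Fin r ⊕ Fin 1) K ⧸ Ideal.span {form a}))) s
          (Spec.map (CommRingCat.ofHom
            (algebraMap K (MvPolynomial (Fin r ⊕ Fin 1) K ⧸ Ideal.span {form a})))) →
        PotentiallyDense K X s := by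
  obtain ⟨s, rfl⟩ : ∃ s, r = s + 1 := ⟨r - 1, by omega⟩
  obtain ⟨Δ₁, hΔ₁, H₁⟩ := exists_ms (s := s) (m := m) (by omega) hm (by omega)
  have h0 : (0 : Fin 1 →₀ ℕ) ∈ M1 m := by
    unfold M1
    rw [Finset.mem_image]
    exact ⟨0, by simp, by simp⟩
  refine assemble h0 ⟨Δ₁, hΔ₁, fun K _ _ a ha => ?_⟩
  obtain ⟨L, _, _, _, _, c, G, H, t₀, g1, g2, g3, g4, g5, g6, g7⟩ := H₁ K a ha
  have hL : NumberField L := NumberField.of_module_finite K L
  have i : Fin s := ⟨0, by omega⟩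
  refine ⟨?_, ?_, dense_ms a c G H t₀ g1 g2 g3 g4 g5 g6⟩
  · intro h0
    apply g7
    rw [← form_sub_map (algebraMap K L) 2 a, h0, map_zero]
  · refine not_sq (dis a) (Sum.elim c fun _ => t₀) (.inl i) ?_ ?_
    · rw [map_dis, g1, g4, zero_mul]
    · rw [map_dis]
      exact g6 i

end Pool.Agent.Helper92.RK
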