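import Mathlib
import Pool.Agent.Helper92.RK.Defs

namespace Pool.Agent.Helper92.RK.Pieces

open MvPolynomial Pool.Agent.Helper92.RK

variable {b : ℕ} {M : Finset (Fin b →₀ ℕ)}

/-- B -/
theorem exists_good {s : ℕ} (h0 : 0 ∈ M) (h2 : 2 ≤ M.card) (hr : M.card ≤ s + 1) :
    ∃ Δ : MvPolynomial (Ix (s + 1) M) ℚ, Δ ≠ 0 ∧
    ∀ (K : Type) [Field K] [CharZero K] (a : Ix (s + 1) M → K), aeval a Δ ≠ 0 →
      ∃ (L : Type) (_ : Field L) (_ : CharZero L) (_ : Algebra K L) (_ : FiniteDimensional K L)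
        (P : Fin (s + 1) → L) (t₀ : Fin b → L),
        (∀ β, cf (fun e => algebraMap K L (a e)) P β = 0) ∧
        eval (Sum.elim P t₀) (pderiv (.inl (Fin.last s))
          (form fun e => algebraMap K L (a e))) = 0 ∧
        (∀ i : Fin s, eval (Sum.elim P t₀) (pderiv (.inl i.castSucc)
          (form fun e => algebraMap K L (a e))) ≠ 0) ∧
        eval (Sum.elim (fun i : Fin s => P i.castSucc) t₀)
          (form (sub 2 fun e => algebraMap K L (a e))) ≠ 0 ∧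
        ∃ t₁ : Fin b → L, eval (Sum.elim P t₁) (pderiv (.inl (Fin.last s))
          (form fun e => algebraMap K L (a e))) ≠ 0 := by
  sorry

/-- C -/
theorem coprime_gen {s : ℕ} (h0 : 0 ∈ M) :
    ∃ Δ : MvPolynomial (Ix s M ⊕ Ix s M) ℚ, Δ ≠ 0 ∧
    ∀ (K : Type) [Field K] [CharZero K] (a a' : Ix s M → K), aeval (Sum.elim a a') Δ ≠ 0 →
      IsRelPrime (form a) (form a') := by
  sorry

/-- D0 -/
theorem form_eq {R : Type*} [CommRing R] {s : ℕ} (a : Ix (s + 1) M → R) :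
    form a = ∑ j : Fin 3, rename (Sum.map Fin.castSucc id) (form (sub j a)) *
      X (.inl (Fin.last s)) ^ (j : ℕ) := by
  sorry

/-- D1 -/
theorem prime_of {K : Type} [Field K] [CharZero K] {s : ℕ} (a : Ix (s + 1) M → K)
    (hc : IsRelPrime (form (sub 2 a)) (form (sub 1 a))) (hA : form (sub 2 a) ≠ 0)
    (hq : ∀ g : MvPolynomial (Fin s ⊕ Fin b) K, g ^ 2 ≠ dis a) :
    (Ideal.span {form a}).IsPrime := by
  sorry

/-- D2 -/
theorem bezout {K : Type} [Field K] [CharZero K] {s : ℕ} (a : Ix (s + 1) M → K)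
    (hc : IsRelPrime (form (sub 2 a)) (form (sub 1 a))) (hA : form (sub 2 a) ≠ 0)
    (hq : ∀ g : MvPolynomial (Fin s ⊕ Fin b) K, g ^ 2 ≠ dis a)
    (h : MvPolynomial (Fin (s + 1) ⊕ Fin b) K) (hh : h ∉ Ideal.span {form a}) :
    ∃ (g : MvPolynomial (Fin s ⊕ Fin b) K) (u v : MvPolynomial (Fin (s + 1) ⊕ Fin b) K),
      g ≠ 0 ∧ u * form a + v * h = rename (Sum.map Fin.castSucc id) g := by
  sorry

end Pool.Agent.Helper92.RK.Pieces
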