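import Mathlib
import Pool.Agent.Helper92.RK.Defs

namespace Pool.Agent.Helper92.RK.Pieces

open MvPolynomial Pool.Agent.Helper92.RK

/-- The exponents `0, .., m` of one variable. -/
noncomputable def M1 (m : ℕ) : Finset (Fin 1 →₀ ℕ) :=
  (Finset.range (m + 1)).image fun k => Finsupp.single 0 k

/-- B2 -/
theorem exists_ms {s m : ℕ} (hs : 1 ≤ s) (hm : 3 ≤ m) (hms : m ≤ s + 2) :
    ∃ Δ : MvPolynomial (Ix (s + 1) (M1 m)) ℚ, Δ ≠ 0 ∧
    ∀ (K : Type) [Field K] [CharZero K] (a : Ix (s + 1) (M1 m) → K), aeval a Δ ≠ 0 →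
      ∃ (L : Type) (_ : Field L) (_ : CharZero L) (_ : Algebra K L) (_ : FiniteDimensional K L)
        (c : Fin s → L) (G H : Polynomial L) (t₀ : L),
        (∀ t, eval (Sum.elim c fun _ => t) (dis fun e => algebraMap K L (a e)) =
          G.eval t * H.eval t ^ 2) ∧
        G.natDegree ≤ 4 ∧ H ≠ 0 ∧ G.eval t₀ = 0 ∧ G.derivative.eval t₀ ≠ 0 ∧
        (∀ i : Fin s, eval (Sum.elim c fun _ => t₀) (pderiv (.inl i)
          (dis fun e => algebraMap K L (a e))) ≠ 0) ∧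
        form (sub 2 fun e => algebraMap K L (a e)) ≠ 0 := by
  sorry

end Pool.Agent.Helper92.RK.Pieces
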